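import Mathlib
import Pool.Agent.Lib.helper19.H19Trunc

set_option autoImplicit false

namespace Pool.Agent.Results.MP_c54d0a_an.NonReal

/-- For all sufficiently large `a`, `F_a(z) = ∫_0^a Φ(t) cos(zt) dt` has a non-real zero. -/
theorem result : ∃ a₀ : ℝ, 0 < a₀ ∧ ∀ a : ℝ, a₀ ≤ a →
    ∃ z : ℂ, Pool.Agent.H19Trunc.F a z = 0 ∧ z.im ≠ 0 :=
  Pool.Agent.H19Trunc.main

end Pool.Agent.Results.MP_c54d0a_an.NonReal
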